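import Mathlib
import Pool.Agent.Helper36.UnitQuat
set_option autoImplicit false

/-!
`ms(G, r)` for a compact group `G` and the theorem `ms(S³, 2) < 1/4`, where `S³` is the group of
unit quaternions (that is, `SU(2)`), a connected compact group.
-/

namespace Pool.Agent.Results.MP_4912e6_co.UnitQuaternions

open MeasureTheory Set Metric TopologicalSpace
open scoped ENNReal Quaternion

/-- The Haar measure `μ` of the compact group `G` normalised by `μ(G) = 1`. -/
noncomputable def haarProb (G : Type) [Group G] [TopologicalSpace G] [IsTopologicalGroup G]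
    [CompactSpace G] [MeasurableSpace G] [BorelSpace G] : Measure G :=
  Measure.haarMeasure (⊤ : PositiveCompacts G)

/-- `A ⊆ G` is symmetric if `A = g A⁻¹ g` for some `g ∈ G`. -/
def IsSymmetricSet {G : Type} [Group G] (A : Set G) : Prop :=
  ∃ g : G, A = (fun a => g * a⁻¹ * g) '' A

/-- `ms(G, r)`: the supremum of all `ε > 0` such that every measurable `r`-colouring `χ` of `G`
admits a measurable monochromatic symmetric set `B` with `μ(B) ≥ ε`. -/
noncomputable def ms (G : Type) [Group G] [TopologicalSpace G] [IsTopologicalGroup G]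
    [CompactSpace G] [MeasurableSpace G] [BorelSpace G] (r : ℕ) : ℝ≥0∞ :=
  sSup {ε : ℝ≥0∞ | 0 < ε ∧ ∀ χ : G → Fin r,
    (∀ i, NullMeasurableSet (χ ⁻¹' {i}) (haarProb G)) →
      ∃ B : Set G, NullMeasurableSet B (haarProb G) ∧ (∃ i, ∀ x ∈ B, χ x = i) ∧
        IsSymmetricSet B ∧ ε ≤ haarProb G B}

/-- The group of unit quaternions, with its Borel sets. -/
abbrev UnitQuat : Type := sphere (0 : ℍ[ℝ]) 1

noncomputable instance : MeasurableSpace UnitQuat := borel UnitQuat

instance : BorelSpace UnitQuat := ⟨rfl⟩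

/-- The unit quaternions form a compact connected topological group `G` with
`ms(G, 2) < 1/2²`. -/
theorem result : IsTopologicalGroup UnitQuat ∧ CompactSpace UnitQuat ∧ T2Space UnitQuat ∧
    ConnectedSpace UnitQuat ∧ ms UnitQuat 2 < 1 / 2 ^ 2 := by
  refine ⟨inferInstance, inferInstance, inferInstance,
    Pool.Agent.Helper36.UnitQuat.connected, ?_⟩
  obtain ⟨β, hβ, c, hc, hcc⟩ := Pool.Agent.Helper36.S3Cert.exists_colouring
  have hhaar : haarProb UnitQuat = Pool.Agent.Helper36.UnitQuat.mu4 :=
    Pool.Agent.Helper36.UnitQuat.haar_eq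
  have hp := Pool.Agent.Helper36.SphMeas.sph_prob (d := 4) (by norm_num)
  have hle : ms UnitQuat 2 ≤ ENNReal.ofReal β := by
    apply sSup_le
    rintro ε ⟨-, hε⟩
    set χ : UnitQuat → Fin 2 := fun x =>
      if c (Pool.Agent.Helper36.UnitQuat.psi x) = true then 1 else 0 with hχ
    have hχm : Measurable χ := by
      refine Measurable.ite ?_ measurable_const measurable_const
      exact (hc.comp Pool.Agent.Helper36.UnitQuat.psi_continuous.measurable)
        (measurableSet_singleton true)
    obtain ⟨B, -, ⟨i, hi⟩, ⟨g, hg⟩, hB⟩ := hε χ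
      (fun i => (hχm (measurableSet_singleton i)).nullMeasurableSet)
    refine hB.trans ?_
    rw [hhaar, Pool.Agent.Helper36.UnitQuat.mu4_apply]
    -- the colour as a Bool
    obtain ⟨b, hb⟩ : ∃ b : Bool, ∀ x, χ x = i →
        c (Pool.Agent.Helper36.UnitQuat.psi x) = b := by
      by_cases hi1 : i = 1
      · refine ⟨true, fun x hx => ?_⟩
        by_contra h
        rw [hχ] at hx
        simp only [if_neg h, hi1] at hx
        exact absurd hx (by decide)
      · refine ⟨false, fun x hx => ?_⟩
        by_contra h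
        have h' : c (Pool.Agent.Helper36.UnitQuat.psi x) = true := by simpa using h
        rw [hχ] at hx
        simp only [if_pos h'] at hx
        exact hi1 hx.symm
    have hsub : Pool.Agent.Helper36.UnitQuat.psi '' B ⊆ {x | c x = b ∧
        c (Pool.Agent.Helper36.RealizeSph.sig (Pool.Agent.Helper36.UnitQuat.psi g) x) = b} := by
      rintro _ ⟨x, hx, rfl⟩
      refine ⟨hb x (hi x hx), ?_⟩
      rw [← Pool.Agent.Helper36.UnitQuat.psi_sig]
      apply hb
      apply hi
      rw [hg]
      exact ⟨x, hx, rfl⟩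
    refine (measure_mono hsub).trans ?_
    have h2 := hcc _ (Pool.Agent.Helper36.UnitQuat.norm_psi g) b
    rw [measureReal_def] at h2
    exact (ENNReal.le_ofReal_iff_toReal_le (measure_ne_top _ _)
      (ENNReal.toReal_nonneg.trans h2)).2 h2
  refine lt_of_le_of_lt hle ?_
  have h4 : (1 / 2 ^ 2 : ℝ≥0∞) = ENNReal.ofReal (1 / 4) := by
    rw [one_div, one_div, ENNReal.ofReal_inv_of_pos (by norm_num)]
    congr 1
    rw [show (4 : ℝ) = 2 ^ 2 by norm_num, ENNReal.ofReal_pow (by norm_num)]
    norm_num
  rw [h4]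
  exact (ENNReal.ofReal_lt_ofReal_iff (by norm_num)).2 hβ

end Pool.Agent.Results.MP_4912e6_co.UnitQuaternions
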